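import Mathlib

set_option autoImplicit false
open Set Function Topology Filter Metric

namespace Pool.Agent.KS6_55.RC

variable {X : Type}

/-- Every point has arbitrarily small open neighbourhoods with finite boundary. -/
def Regular (X : Type) [TopologicalSpace X] : Prop :=
  ∀ x : X, ∀ U : Set X, IsOpen U → x ∈ U →
    ∃ V : Set X, IsOpen V ∧ x ∈ V ∧ V ⊆ U ∧ (frontier V).Finite

/-- Every sequence of pairwise disjoint connected sets is a null sequence. -/
def NullDisjoint (X : Type) [MetricSpace X] : Prop :=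
  ∀ A : ℕ → Set X, (∀ n, IsConnected (A n)) → Pairwise (fun i j => Disjoint (A i) (A j)) →
    Tendsto (fun n => diam (A n)) atTop (𝓝 0)

/-- For every `ε > 0` only finitely many components have diameter at least `ε`. -/
def NullComponents (X : Type) [MetricSpace X] : Prop :=
  ∀ ε : ℝ, 0 < ε → {D : Set X | (∃ x, D = connectedComponent x) ∧ ε ≤ diam D}.Finite

lemma sep_pt [TopologicalSpace X] [CompactSpace X] [T2Space X] {x : X} {H : Set X}
    (hH : IsClosed H) (h : Disjoint (connectedComponent x) H) :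
    ∃ Q, IsClopen Q ∧ x ∈ Q ∧ Disjoint Q H := by
  have h1 : ∀ y ∈ H, ∃ Q, IsClopen Q ∧ x ∈ Q ∧ y ∉ Q := by
    intro y hy
    have h2 : y ∉ connectedComponent x := fun h3 => h.notMem_of_mem_left h3 hy
    rw [connectedComponent_eq_iInter_isClopen, mem_iInter] at h2
    push Not at h2
    obtain ⟨s, hs⟩ := h2
    exact ⟨s.1, s.2.1, s.2.2, hs⟩
  choose! Q q1 q2 q3 using h1
  obtain ⟨t, hc⟩ := hH.isCompact.elim_nhds_subcover' (fun y _ => (Q y)ᶜ)
    (fun y hy => (q1 y hy).compl.isOpen.mem_nhds (q3 y hy))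
  refine ⟨⋂ y ∈ t, Q y, isClopen_biInter_finset fun y hy => q1 _ y.2, ?_, ?_⟩
  · exact mem_iInter₂.2 fun y _ => q2 _ y.2
  · rw [disjoint_left]
    intro z hz hz2
    obtain ⟨y, hy, h4⟩ := mem_iUnion₂.1 (hc hz2)
    exact h4 (mem_iInter₂.1 hz y hy)

/-- Separation of two closed sets which meet no common component. -/
lemma sep [TopologicalSpace X] [CompactSpace X] [T2Space X] {E H : Set X} (hE : IsClosed E)
    (hH : IsClosed H) (h : ∀ x ∈ E, Disjoint (connectedComponent x) H) :
    ∃ G, IsClopen G ∧ E ⊆ G ∧ Disjoint G H := by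
  have h1 := fun (x : X) (hx : x ∈ E) => sep_pt hH (h x hx)
  choose! Q q1 q2 q3 using h1
  obtain ⟨t, hc⟩ := hE.isCompact.elim_nhds_subcover' (fun y _ => Q y)
    (fun y hy => (q1 y hy).isOpen.mem_nhds (q2 y hy))
  refine ⟨⋃ y ∈ t, Q y, isClopen_biUnion_finset fun y hy => q1 _ y.2, hc, ?_⟩
  rw [disjoint_left]
  intro z hz hz2
  obtain ⟨y, hy, h4⟩ := mem_iUnion₂.1 hz
  exact (q3 _ y.2).notMem_of_mem_left h4 hz2

/-- Small clopen neighbourhoods of a component with small other components. -/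
lemma nbhd [MetricSpace X] [CompactSpace X] (hN : NullComponents X) (x : X) {ε : ℝ} (hε : 0 < ε) :
    ∃ Z, IsClopen Z ∧ connectedComponent x ⊆ Z ∧ Z ⊆ thickening ε (connectedComponent x) ∧
      ∀ y ∈ Z, y ∉ connectedComponent x → ∀ z ∈ connectedComponent y, dist y z < ε := by
  obtain ⟨Q, q1, q2, q3⟩ := sep_pt (x := x) (H := (thickening ε (connectedComponent x))ᶜ)
    isOpen_thickening.isClosed_compl
    (disjoint_compl_right_iff_subset.2 (self_subset_thickening hε _))
  let T := {D : Set X | (∃ x, D = connectedComponent x) ∧ ε ≤ diam D} \ {connectedComponent x}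
  have hT : T.Finite := (hN ε hε).subset diff_subset
  have h1 : ∀ D ∈ T, ∃ Q, IsClopen Q ∧ x ∈ Q ∧ Disjoint Q D := by
    rintro D ⟨⟨⟨y, rfl⟩, h2⟩, h3⟩
    exact sep_pt isClosed_connectedComponent (connectedComponent_disjoint (fun h => h3 h.symm))
  choose! P p1 p2 p3 using h1
  have hcl : IsClopen (Q ∩ ⋂ D ∈ T, P D) :=
    q1.inter (hT.isClopen_biInter fun D hD => p1 D hD)
  refine ⟨Q ∩ ⋂ D ∈ T, P D, hcl, ?_, ?_, ?_⟩
  · exact hcl.connectedComponent_subset ⟨q2, mem_iInter₂.2 fun D hD => p2 D hD⟩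
  · exact inter_subset_left.trans (disjoint_compl_right_iff_subset.1 q3)
  · rintro y ⟨hy, hy2⟩ hyx z hz
    by_contra h4
    have h5 : connectedComponent y ∈ T := by
      refine ⟨⟨⟨y, rfl⟩, ?_⟩, fun h => hyx ?_⟩
      · exact (not_lt.1 h4).trans (dist_le_diam_of_mem isBounded_of_compactSpace
          mem_connectedComponent hz)
      · rw [mem_singleton_iff] at h
        rw [← h]
        exact mem_connectedComponent
    exact (p3 _ h5).notMem_of_mem_left (mem_iInter₂.1 hy2 _ h5) mem_connectedComponent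

end Pool.Agent.KS6_55.RC
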