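import Pool.Agent.KS6_55.RC.Clo

set_option autoImplicit false
open Set Function Topology Filter Metric

namespace Pool.Agent.KS6_55.RC

variable {X : Type} [MetricSpace X] [CompactSpace X]

lemma small_inv {r : ℝ} (hr : 0 < r) : ∃ n₀ : ℕ, ∀ n : ℕ, n₀ ≤ n → 2 / ((n : ℝ) + 1) < r := by
  obtain ⟨n₀, h⟩ := exists_nat_one_div_lt (half_pos hr)
  refine ⟨n₀, fun n hn => ?_⟩
  have h1 : (1 : ℝ) / (n + 1) ≤ 1 / (n₀ + 1) := by
    apply one_div_le_one_div_of_le (by positivity)
    have : (n₀ : ℝ) ≤ n := by exact_mod_cast hn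
    linarith
  have h2 : 2 / ((n : ℝ) + 1) = 2 * (1 / (n + 1)) := by ring
  linarith

/-- Extending an open subset with finite boundary from a component. -/
lemma ext_open (hN : NullComponents X) {x : X} {U : Set X} (hU : IsOpen U) (hx : x ∈ U)
    (hR : Regular (connectedComponent x)) :
    ∃ V, IsOpen V ∧ x ∈ V ∧ V ⊆ U ∧ (frontier V).Finite := by
  set C := connectedComponent x with hC
  have hCc : IsClosed C := isClosed_connectedComponent
  obtain ⟨t, ht, htc, htU⟩ := exists_mem_nhds_isClosed_subset (hU.mem_nhds hx)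
  obtain ⟨V₁, v1, v2, v3, v4⟩ := hR ⟨x, mem_connectedComponent⟩ (Subtype.val ⁻¹' interior t)
    (isOpen_interior.preimage continuous_subtype_val) (mem_interior_iff_mem_nhds.2 ht)
  obtain ⟨O, hO, hOV⟩ := isOpen_induced_iff.1 v1
  set V₀ : Set X := Subtype.val '' V₁ with hV₀
  have hVO : V₀ = C ∩ O := by rw [hV₀, ← hOV, Subtype.image_preimage_coe]
  have hVt : V₀ ⊆ t := by
    rintro _ ⟨z, hz, rfl⟩
    exact interior_subset (v3 hz)
  set A := closure V₀ with hA
  have hAt : A ⊆ U := (closure_minimal hVt htc).trans htU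
  have hAC : A ⊆ C := closure_minimal (hVO ▸ inter_subset_left) hCc
  set B := C \ V₀ with hB
  have hBc : IsClosed B := by
    have : B = C \ O := by rw [hB, hVO]; exact diff_self_inter
    rw [this]
    exact hCc.sdiff hO
  have hF : (A ∩ B).Finite := by
    refine (v4.image Subtype.val).subset ?_
    rintro z ⟨hz1, hz2, hz3⟩
    have h1 : z ∈ Subtype.val '' closure V₁ := by
      rw [← hCc.isClosedEmbedding_subtypeVal.closure_image_eq]
      exact hz1
    obtain ⟨c, hc, rfl⟩ := h1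
    refine ⟨c, ?_, rfl⟩
    rw [v1.frontier_eq]
    exact ⟨hc, fun h => hz3 ⟨c, h, rfl⟩⟩
  obtain ⟨ρ, hρ, hρU⟩ := (isClosed_closure (s := V₀)).isCompact.exists_thickening_subset_open hU hAt
  obtain ⟨n₀, hn₀⟩ := small_inv hρ
  have hz := fun n : ℕ => nbhd hN x (ε := 1 / ((n : ℝ) + 1)) (by positivity)
  choose Z' w1 w2 w3 w4 using hz
  let Z : ℕ → Set X := fun n => ⋂ k ∈ Finset.range (n + 1), Z' k
  have z1 : ∀ n, IsClopen (Z n) := fun n => isClopen_biInter_finset fun k _ => w1 k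
  have z2 : ∀ n, C ⊆ Z n := fun n => subset_iInter₂ fun k _ => w2 k
  have z3 : ∀ n, Z n ⊆ Z' n := fun n => biInter_subset_of_mem (Finset.self_mem_range_succ n)
  have z4 : ∀ m n, m ≤ n → Z n ⊆ Z m := fun m n h => subset_iInter₂ fun k hk =>
    biInter_subset_of_mem (Finset.mem_range.2 (by have := Finset.mem_range.1 hk; omega))
  have z5 : ∀ y, y ∉ C → ∃ n, y ∉ Z n := by
    intro y hy
    obtain ⟨ε, hε, hb⟩ := Metric.mem_nhds_iff.1 (hCc.isOpen_compl.mem_nhds hy)
    obtain ⟨n, hn⟩ := exists_nat_one_div_lt hε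
    refine ⟨n, fun h => ?_⟩
    obtain ⟨c, hc, hd⟩ := mem_thickening_iff.1 (w3 n (z3 n h))
    exact hb (mem_ball'.2 (hd.trans hn)) hc
  have z6 : ∀ y m, y ∉ C → y ∈ Z m → ∃ n, m ≤ n ∧ y ∈ Z n \ Z (n + 1) := by
    classical
    intro y m hy hm
    have h := z5 y hy
    have h1 := Nat.find_spec h
    have h2 : m < Nat.find h := by
      by_contra h3
      exact h1 (z4 _ _ (not_lt.1 h3) hm)
    obtain ⟨k, hk⟩ : ∃ k, Nat.find h = k + 1 := ⟨Nat.find h - 1, by omega⟩
    refine ⟨k, by omega, ?_, hk ▸ h1⟩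
    exact not_not.1 (Nat.find_min h (m := k) (by omega))
  have z7 : ∀ m n y, y ∈ Z m \ Z (m + 1) → y ∈ Z n \ Z (n + 1) → m = n := by
    intro m n y h1 h2
    rcases lt_trichotomy m n with h | h | h
    · exact absurd (z4 _ _ h h2.1) h1.2
    · exact h
    · exact absurd (z4 _ _ h h1.1) h2.2
  have kc : ∀ n, IsClopen (Z n \ Z (n + 1)) := fun n => (z1 n).diff (z1 (n + 1))
  have hs : ∀ n, ∃ G, IsClopen G ∧ (Z n \ Z (n + 1)) \ thickening (2 / ((n : ℝ) + 1)) B ⊆ G ∧
      Disjoint G ((Z n \ Z (n + 1)) \ thickening (2 / ((n : ℝ) + 1)) A) := by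
    intro n
    refine sep ((kc n).isClosed.sdiff isOpen_thickening) ((kc n).isClosed.sdiff isOpen_thickening)
      fun y hy => disjoint_left.2 fun z hz hz2 => ?_
    have hyC : y ∉ C := fun h => hy.1.2 (z2 _ h)
    have h1 := w4 n y (z3 n hy.1.1) hyC z hz
    obtain ⟨c, hc, hd⟩ := mem_thickening_iff.1 (w3 n (z3 n hy.1.1))
    have h0 : (1 : ℝ) / (n + 1) + 1 / (n + 1) = 2 / (n + 1) := by ring
    have hp : (0 : ℝ) < 1 / (n + 1) := by positivity
    by_cases hcV : c ∈ V₀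
    · refine hz2.2 (mem_thickening_iff.2 ⟨c, subset_closure hcV, ?_⟩)
      have := dist_triangle_left z c y
      linarith
    · refine hy.2 (mem_thickening_iff.2 ⟨c, ⟨hc, hcV⟩, ?_⟩)
      linarith
  choose G g1 g2 g3 using hs
  let V : Set X := V₀ ∪ ⋃ n, ⋃ (_ : n₀ ≤ n), (G n ∩ (Z n \ Z (n + 1)))
  have hVmem : ∀ p, p ∈ V ↔ p ∈ V₀ ∨ ∃ n, n₀ ≤ n ∧ p ∈ G n ∩ (Z n \ Z (n + 1)) := by
    intro p
    simp only [V, mem_union, mem_iUnion, exists_prop]
  have hV₀C : V₀ ⊆ C := hVO ▸ inter_subset_left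
  have hxV : x ∈ V := (hVmem x).2 (Or.inl ⟨⟨x, mem_connectedComponent⟩, v2, rfl⟩)
  have hGA : ∀ n p, p ∈ G n ∩ (Z n \ Z (n + 1)) → p ∈ thickening (2 / ((n : ℝ) + 1)) A := by
    intro n p hp
    by_contra h
    exact (g3 n).notMem_of_mem_left hp.1 ⟨hp.2, h⟩
  have hVU : V ⊆ U := by
    intro p hp
    rcases (hVmem p).1 hp with h | ⟨n, hn, h⟩
    · exact htU (hVt h)
    · exact hρU (thickening_mono (hn₀ n hn).le _ (hGA n p h))
  have hVo : IsOpen V := by
    rw [isOpen_iff_mem_nhds]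
    intro y hy
    rcases (hVmem y).1 hy with h | ⟨n, hn, h⟩
    · have h1 : y ∈ O ∩ Bᶜ := ⟨(hVO ▸ h).2, fun h' => h'.2 h⟩
      obtain ⟨r, hr, hb⟩ := Metric.mem_nhds_iff.1 ((hO.inter hBc.isOpen_compl).mem_nhds h1)
      obtain ⟨n₁, hn₁⟩ := small_inv (half_pos hr)
      have h2 : ball y (r / 2) ∩ Z (max n₀ n₁) ∈ 𝓝 y := inter_mem (ball_mem_nhds _ (half_pos hr))
        ((z1 _).isOpen.mem_nhds (z2 _ (hV₀C h)))
      refine mem_of_superset h2 ?_
      rintro p ⟨hp1, hp2⟩
      rw [hVmem]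
      by_cases hpC : p ∈ C
      · left
        rw [hVO]
        exact ⟨hpC, (hb (ball_subset_ball (half_le_self hr.le) hp1)).1⟩
      · right
        obtain ⟨n, hn, hpn⟩ := z6 p _ hpC hp2
        refine ⟨n, (le_max_left _ _).trans hn, g2 n ⟨hpn, fun h3 => ?_⟩, hpn⟩
        obtain ⟨b, hb1, hb2⟩ := mem_thickening_iff.1 h3
        have h4 := hn₁ n ((le_max_right _ _).trans hn)
        have h5 : b ∈ ball y r := by
          rw [mem_ball] at hp1 ⊢
          have := dist_triangle_left b y p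
          linarith
        exact (hb h5).2 hb1
    · refine mem_of_superset (((g1 n).inter (kc n)).isOpen.mem_nhds h) fun p hp => ?_
      exact (hVmem p).2 (Or.inr ⟨n, hn, hp⟩)
  refine ⟨V, hVo, hxV, hVU, hF.subset ?_⟩
  rw [hVo.frontier_eq]
  rintro y ⟨hy1, hy2⟩
  by_contra hyF
  have key : ∃ N, N ∈ 𝓝 y ∧ Disjoint N V := by
    by_cases hyC : y ∈ C
    · have hyB : y ∈ B := ⟨hyC, fun h => hy2 ((hVmem y).2 (Or.inl h))⟩
      have hyA : y ∉ A := fun h => hyF ⟨h, hyB⟩
      obtain ⟨r, hr, hb⟩ := Metric.mem_nhds_iff.1 (isClosed_closure.isOpen_compl.mem_nhds hyA)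
      obtain ⟨n₁, hn₁⟩ := small_inv (half_pos hr)
      refine ⟨ball y (r / 2) ∩ Z n₁, inter_mem (ball_mem_nhds _ (half_pos hr))
        ((z1 _).isOpen.mem_nhds (z2 _ hyC)), disjoint_left.2 ?_⟩
      rintro p ⟨hp1, hp2⟩ hpV
      rcases (hVmem p).1 hpV with h | ⟨n, hn, h⟩
      · exact hb (ball_subset_ball (half_le_self hr.le) hp1) (subset_closure h)
      · have h3 : n₁ ≤ n := by
          by_contra h4
          exact h.2.2 (z4 _ _ (by omega) hp2)
        obtain ⟨a, ha1, ha2⟩ := mem_thickening_iff.1 (hGA n p h)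
        have h4 := hn₁ n h3
        have h5 : a ∈ ball y r := by
          rw [mem_ball] at hp1 ⊢
          have := dist_triangle_left a y p
          linarith
        exact hb h5 ha1
    · by_cases hy0 : y ∈ Z 0
      · obtain ⟨n, -, hn⟩ := z6 y 0 hyC hy0
        refine ⟨(Z n \ Z (n + 1)) \ (G n ∩ (Z n \ Z (n + 1))) ∪
          (if n₀ ≤ n then ∅ else Z n \ Z (n + 1)), ?_, ?_⟩
        · by_cases hn0 : n₀ ≤ n
          · refine mem_of_superset ((((kc n).diff ((g1 n).inter (kc n))).isOpen).mem_nhds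
              ⟨hn, fun h => hy2 ((hVmem y).2 (Or.inr ⟨n, hn0, h⟩))⟩) subset_union_left
          · rw [if_neg hn0]
            exact mem_of_superset ((kc n).isOpen.mem_nhds hn) subset_union_right
        · rw [disjoint_left]
          intro p hp hpV
          have hpK : p ∈ Z n \ Z (n + 1) := by
            rcases hp with hp | hp
            · exact hp.1
            · split_ifs at hp
              · exact hp.elim
              · exact hp
          rcases (hVmem p).1 hpV with h | ⟨m, hm, h⟩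
          · exact hpK.2 (z2 _ (hV₀C h))
          · have := z7 m n p h.2 hpK
            subst this
            rw [if_pos hm] at hp
            rcases hp with hp | hp
            · exact hp.2 h
            · exact hp
      · refine ⟨(Z 0)ᶜ, (z1 0).compl.isOpen.mem_nhds hy0, disjoint_left.2 fun p hp hpV => ?_⟩
        rcases (hVmem p).1 hpV with h | ⟨m, hm, h⟩
        · exact hp (z2 _ (hV₀C h))
        · exact hp (z4 _ _ (Nat.zero_le _) h.2.1)
  obtain ⟨N, hN1, hN2⟩ := key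
  obtain ⟨p, hp1, hp2⟩ := mem_closure_iff_nhds.1 hy1 N hN1
  exact hN2.notMem_of_mem_left hp1 hp2

end Pool.Agent.KS6_55.RC
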