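import Pool.Agent.KS6_55.RC.Ext
import Pool.Graph.R_pool_sql_team_39128cda.H.MP_77b145_gt.I

set_option autoImplicit false
open Set Function Topology Filter Metric

namespace Pool.Agent.KS6_55.RC

variable {X : Type} [MetricSpace X] [CompactSpace X]

open Pool.Agent.H.MP_77b145_gt in
lemma null_of_regular (h : Regular X) : NullDisjoint X := by
  intro A h1 h2
  rw [tendsto_order]
  refine ⟨fun a ha => Eventually.of_forall fun n => ha.trans_le diam_nonneg, fun ε hε => ?_⟩
  by_contra k
  obtain ⟨φ, p1, p2⟩ := extraction_of_frequently_atTop (not_eventually.1 k)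
  refine nul_of_reg h _ (half_pos hε) (fun n => A (φ n)) (fun n => (h1 _).isPreconnected)
    (fun i j e => h2 (p1.injective.ne e)) fun n => by_contra fun l => p2 n ?_
  refine (diam_le_of_forall_dist_le (half_pos hε).le fun a ha b hb => ?_).trans_lt
    (half_lt_self hε)
  exact le_of_not_ge fun m => l ⟨a, ha, b, hb, m⟩

lemma null_comp (h : NullDisjoint X) (x : X) : NullDisjoint (connectedComponent x) := by
  intro A h1 h2
  have h3 := h (fun n => Subtype.val '' A n)
    (fun n => (h1 n).image _ continuous_subtype_val.continuousOn)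
    (fun i j hij => (disjoint_image_iff Subtype.val_injective).2 (h2 hij))
  refine h3.congr fun n => ?_
  exact isometry_subtype_coe.diam_image _

lemma nullComponents (h : NullDisjoint X) : NullComponents X := by
  intro ε hε
  by_contra hinf
  have hinf' : {D : Set X | (∃ x, D = connectedComponent x) ∧ ε ≤ diam D}.Infinite := hinf
  let g := Set.Infinite.natEmbedding _ hinf'
  have h1 : ∀ n, IsConnected ((g n : Set X)) := by
    intro n
    obtain ⟨⟨x, hx⟩, -⟩ := (g n).2
    rw [hx]
    exact isConnected_connectedComponent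
  have h2 : Pairwise (fun i j => Disjoint ((g i : Set X)) (g j : Set X)) := by
    intro i j hij
    have hne : (g i : Set X) ≠ g j := fun h => hij (g.injective (Subtype.ext h))
    obtain ⟨⟨x, hx⟩, -⟩ := (g i).2
    obtain ⟨⟨y, hy⟩, -⟩ := (g j).2
    rw [hx, hy] at hne ⊢
    exact connectedComponent_disjoint hne
  have h3 := ((tendsto_order.1 (h _ h1 h2)).2 ε hε).exists
  obtain ⟨n, hn⟩ := h3
  exact absurd (g n).2.2 (not_le.2 hn)

instance (x : X) : CompactSpace (connectedComponent x) :=
  isCompact_iff_compactSpace.1 isClosed_connectedComponent.isCompact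

instance (x : X) : ConnectedSpace (connectedComponent x) :=
  isConnected_iff_connectedSpace.1 isConnected_connectedComponent

lemma regular_iff_continuum (Y : Type) [MetricSpace Y] [CompactSpace Y] [ConnectedSpace Y] :
    Regular Y ↔ NullDisjoint Y := Pool.Agent.H.MP_77b145_gt.main Y

theorem tfae : [Regular X, NullDisjoint X,
    (∀ x : X, Regular (connectedComponent x)) ∧ NullComponents X,
    (∀ x : X, NullDisjoint (connectedComponent x)) ∧ NullComponents X].TFAE := by
  tfae_have 1 → 2 := null_of_regular
  tfae_have 2 → 4 := fun h => ⟨null_comp h, nullComponents h⟩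
  tfae_have 4 → 3 := fun h => ⟨fun x => (regular_iff_continuum _).2 (h.1 x), h.2⟩
  tfae_have 3 → 1 := fun h x U hU hx => ext_open h.2 hU hx (h.1 x)
  tfae_finish

end Pool.Agent.KS6_55.RC
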